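import Pool.Agent.SBT.FinalN

/-!
MP_57632f_nt, partial result: `π` is not in two fields at the same time which are generated by
numbers with simple expansions in multiplicatively independent bases (block complexity, and
Lempel-Ziv complexity with errors).
-/

set_option autoImplicit false

namespace Pool.Agent.Results.MP_57632f_nt.FieldTheorem

open Filter

/-- the `i`-th digit after the point (`i ≥ 1`) of the real number `x` in base `b` -/
noncomputable def digit (b : ℕ) (x : ℝ) (i : ℕ) : ℤ := ⌊x * (b : ℝ) ^ i⌋ % b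

/-- the number of different blocks of `n` consecutive digits of `x` in base `b` which start at one
of the first `N` places after the point -/
noncomputable def blocks (b : ℕ) (x : ℝ) (n N : ℕ) : ℕ :=
  {w : Fin n → ℤ | ∃ i < N, ∀ j : Fin n, w j = digit b x (i + 1 + j)}.ncard

/-- there is a word `u 0, ..., u (N - 1)` of digits in base `b`, a product of `m` phrases each of
which is a single letter or occurs also at an earlier place of the word (overlaps allowed), which
differs from the first `N` digits of `x` in base `b` at `e` places, and `m + e ≤ c` -/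
def Compressed (b : ℕ) (x : ℝ) (N c : ℕ) : Prop :=
  ∃ (u : ℕ → ℤ) (m : ℕ) (p : ℕ → ℕ), (∀ i, 0 ≤ u i ∧ u i < b) ∧ p 0 = 0 ∧ p m = N ∧
    (∀ j < m, p j < p (j + 1) ∧ (p (j + 1) = p j + 1 ∨
      ∃ s < p j, ∀ i, p j + i < p (j + 1) → u (s + i) = u (p j + i))) ∧
    m + ((Finset.range N).filter fun i => digit b x (i + 1) ≠ u i).card ≤ c

/-- `x` has a finite irrationality exponent -/
def FiniteExponent (x : ℝ) : Prop :=
  ∃ (μ : ℕ) (c : ℝ), 0 < c ∧ ∀ (q : ℕ) (P : ℤ), 0 < q → c ≤ |x - P / q| * (q : ℝ) ^ μ

/-- the multiplicative groups generated by the `a i` and by the `b j` have only `1` in common -/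
def Independent {k l : ℕ} (a : Fin k → ℕ) (b : Fin l → ℕ) : Prop :=
  ∀ (e : Fin k → ℤ) (f : Fin l → ℤ), ∏ i, (a i : ℚ) ^ e i = ∏ j, (b j : ℚ) ^ f j →
    ∏ i, (a i : ℚ) ^ e i = 1

/-- whenever the groups generated by the integers `a i ≥ 2` and `b j ≥ 2` have trivial intersection
and `ξ` is in both fields `ℚ(x 1, ..., x k)` and `ℚ(y 1, ..., y l)`, then the expansions of the
`x i` in base `a i` and of the `y j` in base `b j` are not all simple -/
def Separated (ξ : ℝ) : Prop :=
  ∀ (k l : ℕ) (a : Fin k → ℕ) (b : Fin l → ℕ) (x : Fin k → ℝ) (y : Fin l → ℝ),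
    (∀ i, 2 ≤ a i) → (∀ j, 2 ≤ b j) → Independent a b →
    ξ ∈ IntermediateField.adjoin ℚ (Set.range x) →
    ξ ∈ IntermediateField.adjoin ℚ (Set.range y) →
    (∀ C : ℕ, ∃ Λ : ℕ, ∀ᶠ n : ℕ in atTop,
      C * n ≤ ∑ i, blocks (a i) (x i) n (Λ * n) + ∑ j, blocks (b j) (y j) n (Λ * n)) ∧
    ∀ K : ℝ, ∀ᶠ N : ℕ in atTop, ∀ (c : Fin k → ℕ) (d : Fin l → ℕ),
      (∀ i, Compressed (a i) (x i) N (c i)) → (∀ j, Compressed (b j) (y j) N (d j)) →
      K * Real.log N ≤ ∑ i, (c i : ℝ) + ∑ j, (d j : ℝ)

theorem main (ξ : ℝ) (hξ : FiniteExponent ξ) : Separated ξ := by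
  obtain ⟨μ, hμ⟩ := hξ
  have hM : SBT.Meas ξ μ := hμ
  intro k l a b x y ha hb hab hx hy
  have hI : SBT.IndG a b := hab
  refine ⟨fun C => ?_, fun K => ?_⟩
  · exact SBT.MFF_ k l a b x y ξ μ ha hb hI hM hx hy C
  · filter_upwards [SBT.NFF_ k l a b x y ξ μ ha hb hI hM hx hy K] with N hN
    intro c d hc hd
    refine hN (fun i => c i) (fun j => d j) (fun i => ?_) fun j => ?_
    · obtain ⟨u, m, p, h1, h2, h3, h4, h5⟩ := hc i
      exact ⟨u, m, p, h1, ⟨h2, h3, h4⟩, by exact_mod_cast h5⟩
    · obtain ⟨u, m, p, h1, h2, h3, h4, h5⟩ := hd j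
      exact ⟨u, m, p, h1, ⟨h2, h3, h4⟩, by exact_mod_cast h5⟩

/-- Let `ξ` be a real number of finite irrationality exponent, for instance `ξ = π`, let `a i` and
`b j` be integers `≥ 2` such that the multiplicative groups generated by the `a i` and by the `b j`
have only `1` in common, and let `ξ` be in the field `ℚ(x 1, ..., x k)` and in the field
`ℚ(y 1, ..., y l)`, `x i`, `y j` real.  (1) For every `C` there is `Λ` such that for all large `n`
the base `a i` expansions of the `x i` and the base `b j` expansions of the `y j` have together at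
least `C n` different blocks of `n` digits among their first `Λ n` places.  (2) For every `K` and
all large `N`: if the first `N` digits of each of these numbers can be changed into a product of
phrases (single digits or words which occur earlier), then the numbers of phrases and of changes
are together at least `K log N`. -/
theorem result : (∀ ξ : ℝ, FiniteExponent ξ → Separated ξ) ∧ Separated Real.pi :=
  ⟨main, main Real.pi ⟨9, SBT.meas_pi⟩⟩

end Pool.Agent.Results.MP_57632f_nt.FieldTheorem
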